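import Pool.Agent.Work.MP_5cb0a4_pr.Main

open MeasureTheory ProbabilityTheory Pool.Agent.Work.MP_5cb0a4_pr

namespace Pool.Agent.Results.MP_5cb0a4_pr.BoundaryCounterexample

/-- For every rational point `s` of the boundary of the octahedron (for instance the non-vertex
points (1/2,1/2,0) and (1/3,1/3,1/3)) there is an ergodic Gibbs measure of mean current `s` such
that, with positive probability, the union of two independent samples has no infinite path. -/
theorem result (s : Fin 3 → ℚ) (hs : ∑ i, |s i| = 1) :
    ∃ ν : Measure Dimer, IsErgodicGibbs ν ∧ (meanCurrent ν = fun i => (s i : ℝ)) ∧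
      0 < (ν.prod ν) {p | infinitePaths p.1 p.2 = ∅} :=
  main s hs

end Pool.Agent.Results.MP_5cb0a4_pr.BoundaryCounterexample
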