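import Pool.Agent.Work.MP_5cb0a4_pr.N.MainN

open MeasureTheory ProbabilityTheory Pool.Agent.Work.MP_5cb0a4_pr

namespace Pool.Agent.Results.MP_5cb0a4_pr.SmallCurrent

/-- There is an open neighbourhood of zero such that for any two ergodic Gibbs measures with the
same mean current in it, the union of two independent samples almost surely contains infinitely
many infinite paths. -/
theorem result : ∃ s₀ : ℝ, 0 < s₀ ∧ ∀ ν₁ ν₂ : Measure Dimer, IsErgodicGibbs ν₁ →
    IsErgodicGibbs ν₂ → meanCurrent ν₁ = meanCurrent ν₂ → ∑ i, |meanCurrent ν₁ i| < s₀ →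
    ∀ᵐ p ∂(ν₁.prod ν₂), (infinitePaths p.1 p.2).Infinite :=
  Z.mainN

end Pool.Agent.Results.MP_5cb0a4_pr.SmallCurrent
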