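import Pool.Agent.Work.MP_5cb0a4_pr.D.Main

open MeasureTheory ProbabilityTheory Pool.Agent.Work.MP_5cb0a4_pr

namespace Pool.Agent.Results.MP_5cb0a4_pr.ZeroInfinityLaw

/-- The law of the number of infinite paths for two ergodic Gibbs measures with the same mean
current: either there are almost surely infinitely many, or the two measures are equal, there is
no infinite path with probability `1 / k` for an integer `k`, and infinitely many otherwise. -/
theorem result (ν₁ ν₂ : Measure Dimer) (h₁ : IsErgodicGibbs ν₁) (h₂ : IsErgodicGibbs ν₂)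
    (h : meanCurrent ν₁ = meanCurrent ν₂) :
    (∀ᵐ p ∂(ν₁.prod ν₂), (infinitePaths p.1 p.2).Infinite) ∨
      (ν₁ = ν₂ ∧ (∃ k : ℕ, (k : ENNReal) * (ν₁.prod ν₂) {p | infinitePaths p.1 p.2 = ∅} = 1) ∧
        ∀ᵐ p ∂(ν₁.prod ν₂), infinitePaths p.1 p.2 = ∅ ∨ (infinitePaths p.1 p.2).Infinite) :=
  Z.pathLaw h₁ h₂ h

end Pool.Agent.Results.MP_5cb0a4_pr.ZeroInfinityLaw
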